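import Pool.Agent.W662.SK.StmtsB

set_option autoImplicit false
set_option linter.unusedSectionVars false

open scoped InnerProductSpace ENNReal
open Filter Topology

namespace Pool.Agent.W115.SK
open Pool.Agent.W662.SK

noncomputable section

section ids
variable {Γ : Type} [Group Γ] {K : Type} [NormedAddCommGroup K] [InnerProductSpace ℂ K]

lemma Gop_add (x x' y : K) (g : Γ) : Gop (x + x') y g = Gop x y g + Gop x' y g := by
  refine ContinuousLinearMap.ext fun f => l2_ext fun k => ?_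
  rw [add_apply, l2_add_apply, Gop_apply, Gop_apply, Gop_apply, smul_add]

lemma Gop_smul (a : ℂ) (x y : K) (g : Γ) : Gop (a • x) y g = a • Gop x y g := by
  refine ContinuousLinearMap.ext fun f => l2_ext fun k => ?_
  rw [smul_apply, l2_smul_apply, Gop_apply, Gop_apply, smul_comm]

lemma Gop_mul (x y : K) (g : Γ) (x' y' : K) (g' : Γ) :
    Gop x y g * Gop x' y' g' = ⟪y, x'⟫_ℂ • Gop x y' (g * g') := by
  refine ContinuousLinearMap.ext fun f => l2_ext fun k => ?_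
  change Gop x y g (Gop x' y' g' f) k = ⟪y, x'⟫_ℂ • (Gop x y' (g * g') f k)
  rw [Gop_apply, Gop_apply, Gop_apply, inner_smul_right, mul_inv_rev, mul_assoc, mul_comm,
    smul_smul]

lemma Gop_star [CompleteSpace K] (x y : K) (g : Γ) : star (Gop x y g) = Gop y x g⁻¹ := by
  have h1 : Gop x y g = lft Γ (InnerProductSpace.rankOne ℂ x y) * cl (Lam K g) := rfl
  have h2 : Gop y x g⁻¹ = lft Γ (InnerProductSpace.rankOne ℂ y x) * cl (Lam K g⁻¹) := rfl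
  have h3 : star (lft Γ (InnerProductSpace.rankOne ℂ x y)) =
      lft Γ (InnerProductSpace.rankOne ℂ y x) := by
    change ContinuousLinearMap.adjoint (lft Γ (InnerProductSpace.rankOne ℂ x y)) = _
    rw [adjoint_lft, InnerProductSpace.adjoint_rankOne]
  rw [h1, h2, star_mul, h3, star_cl, ← Lam_inv]
  exact (lft_Lam _ _).symm

lemma sg_Gop (π : Γ →* (K ≃ₗᵢ[ℂ] K)) (h : Γ) (x y : K) (g : Γ) :
    sg π (cl (Lam K h)) * Gop x y g = Gop (π h x) y (h * g) := by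
  rw [sg_Lam]
  refine ContinuousLinearMap.ext fun f => l2_ext fun k => ?_
  rw [Gop_apply]
  change π h (Gop x y g f (h⁻¹ * k)) = _
  rw [Gop_apply, map_smul, mul_inv_rev, mul_assoc]

lemma Gop_Rho (x y : K) (g h : Γ) : Gop x y g * cl (Rho K h) = cl (Rho K h) * Gop x y g := by
  refine ContinuousLinearMap.ext fun f => l2_ext fun k => ?_
  change Gop x y g (Rho K h f) k = Rho K h (Gop x y g f) k
  rw [Rho_apply, Gop_apply, Gop_apply, Rho_apply, mul_assoc]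

lemma sgLam_Rho (π : Γ →* (K ≃ₗᵢ[ℂ] K)) (g h : Γ) :
    sg π (cl (Lam K g)) * cl (Rho K h) = cl (Rho K h) * sg π (cl (Lam K g)) := by
  rw [sg_Lam]
  refine ContinuousLinearMap.ext fun f => l2_ext fun k => ?_
  change π g (Rho K h f (g⁻¹ * k)) = Rho K h ((lft Γ (cl (π g))).comp (cl (Lam K g)) f) k
  rw [Rho_apply, Rho_apply]
  change _ = π g (f (g⁻¹ * (k * h)))
  rw [mul_assoc]

lemma Jd_Rho (j : L2 Γ K →L[ℂ] L2 Γ K) (hj : j ∈ Jd Γ K) (h : Γ) :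
    j * cl (Rho K h) = cl (Rho K h) * j := by
  have hc : IsClosed {T : L2 Γ K →L[ℂ] L2 Γ K | T * cl (Rho K h) = cl (Rho K h) * T} :=
    isClosed_eq (continuous_id.clm_comp continuous_const) (continuous_const.clm_comp continuous_id)
  refine hc.closure_subset_iff.2 ?_ hj
  intro T hT
  refine Submodule.span_induction (p := fun T _ => T * cl (Rho K h) = cl (Rho K h) * T)
    ?_ ?_ ?_ ?_ hT
  · rintro T ⟨x, y, g, rfl⟩
    exact Gop_Rho x y g h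
  · simp
  · intro a b _ _ ha hb
    rw [add_mul, mul_add, ha, hb]
  · intro c a _ ha
    rw [smul_mul_assoc, mul_smul_comm, ha]

lemma continuous_sg (π : Γ →* (K ≃ₗᵢ[ℂ] K)) : Continuous (fun c => sg π c) := by
  unfold sg
  exact continuous_const.clm_comp (continuous_id.clm_comp continuous_const)

lemma sgCr_Rho [CompleteSpace K] (h0 : S_B0) (π : Γ →* (K ≃ₗᵢ[ℂ] K))
    (c : L2 Γ K →L[ℂ] L2 Γ K) (hc : c ∈ Cr Γ K) (h : Γ) :
    sg π c * cl (Rho K h) = cl (Rho K h) * sg π c := by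
  obtain ⟨hmul, hstar, hadd, hsmul, hone, hnorm⟩ := h0 Γ K π
  have hcl : IsClosed {T : L2 Γ K →L[ℂ] L2 Γ K | sg π T * cl (Rho K h) = cl (Rho K h) * sg π T} :=
    isClosed_eq ((continuous_sg π).clm_comp continuous_const)
      (continuous_const.clm_comp (continuous_sg π))
  refine hcl.closure_subset_iff.2 ?_ hc
  intro T hT
  refine Submodule.span_induction (p := fun T _ => sg π T * cl (Rho K h) = cl (Rho K h) * sg π T)
    ?_ ?_ ?_ ?_ hT
  · rintro T ⟨g, rfl⟩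
    exact sgLam_Rho π g h
  · have h0' : sg π (0 : L2 Γ K →L[ℂ] L2 Γ K) = 0 := by
      have := hsmul 0 0
      simpa using this
    rw [h0']; simp
  · intro a b _ _ ha hb
    rw [hadd, add_mul, mul_add, ha, hb]
  · intro c a _ ha
    rw [hsmul, smul_mul_assoc, mul_smul_comm, ha]

end ids

section main
variable {Γ : Type} [Group Γ] {K : Type} [NormedAddCommGroup K] [InnerProductSpace ℂ K]
  [CompleteSpace K]

lemma sg_zero (h0 : S_B0) (π : Γ →* (K ≃ₗᵢ[ℂ] K)) :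
    sg π (0 : L2 Γ K →L[ℂ] L2 Γ K) = 0 := by
  obtain ⟨hmul, hstar, hadd, hsmul, hone, hnorm⟩ := h0 Γ K π
  have := hsmul 0 0
  simpa using this

lemma Jd_le (h0 : S_B0) (π : Γ →* (K ≃ₗᵢ[ℂ] K)) (j : L2 Γ K →L[ℂ] L2 Γ K) (hj : j ∈ Jd Γ K) :
    j ∈ Aset π :=
  ⟨j, hj, 0, Submodule.zero_mem _, by rw [sg_zero h0, add_zero]⟩

lemma sg_le (π : Γ →* (K ≃ₗᵢ[ℂ] K)) (c : L2 Γ K →L[ℂ] L2 Γ K) (hc : c ∈ Cr Γ K) :
    sg π c ∈ Aset π :=
  ⟨0, Submodule.zero_mem _, c, hc, by rw [zero_add]⟩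

lemma Aset_Rho (h0 : S_B0) (π : Γ →* (K ≃ₗᵢ[ℂ] K)) (T : L2 Γ K →L[ℂ] L2 Γ K)
    (hT : T ∈ Aset π) (h : Γ) : T * cl (Rho K h) = cl (Rho K h) * T := by
  obtain ⟨j, hj, c, hc, rfl⟩ := hT
  rw [add_mul, mul_add, Jd_Rho j hj h, sgCr_Rho h0 π c hc h]

/-- finite sums of values -/
def FS (Φ : K → K → Γ → (L2 Γ K →L[ℂ] L2 Γ K)) (v : L2 Γ K) : Prop :=
  ∃ (m : ℕ) (x y : Fin m → K) (g : Fin m → Γ) (z : Fin m → L2 Γ K),
    v = ∑ r, Φ (x r) (y r) (g r) (z r)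

lemma FS_zero (Φ : K → K → Γ → (L2 Γ K →L[ℂ] L2 Γ K)) : FS Φ 0 :=
  ⟨0, Fin.elim0, Fin.elim0, Fin.elim0, Fin.elim0, by simp⟩

lemma FS_one (Φ : K → K → Γ → (L2 Γ K →L[ℂ] L2 Γ K)) (x y : K) (g : Γ) (z : L2 Γ K) :
    FS Φ (Φ x y g z) :=
  ⟨1, fun _ => x, fun _ => y, fun _ => g, fun _ => z, by simp⟩

lemma FS_add (Φ : K → K → Γ → (L2 Γ K →L[ℂ] L2 Γ K)) (v w : L2 Γ K) (hv : FS Φ v) (hw : FS Φ w) :
    FS Φ (v + w) := by
  obtain ⟨m, x, y, g, z, rfl⟩ := hv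
  obtain ⟨m', x', y', g', z', rfl⟩ := hw
  refine ⟨m + m', Fin.append x x', Fin.append y y', Fin.append g g', Fin.append z z', ?_⟩
  rw [Fin.sum_univ_add]
  simp only [Fin.append_left, Fin.append_right]

lemma FS_sum (Φ : K → K → Γ → (L2 Γ K →L[ℂ] L2 Γ K)) {ι : Type} (s : Finset ι) (v : ι → L2 Γ K)
    (hv : ∀ i ∈ s, FS Φ (v i)) : FS Φ (∑ i ∈ s, v i) := by
  classical
  induction s using Finset.induction_on with
  | empty => simpa using FS_zero Φ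
  | insert a s ha ih =>
    rw [Finset.sum_insert ha]
    exact FS_add Φ _ _ (hv a (Finset.mem_insert_self _ _))
      (ih fun i hi => hv i (Finset.mem_insert_of_mem hi))

theorem b15 (h0 : S_B0) (_h1 : S_B1) (_h2 : S_B2) (h5 : S_B5) (h12 : S_B12) (h12a : S_B12a)
    (h14 : S_B14) : S_B15 := by
  intro Γ K _ _ _ _ π π' f hf hs hs' A B hA hB θ
  obtain ⟨hmul, hstar, hadd, hsmul, hone, hnorm⟩ := h0 Γ K π
  have hAcl : IsClosed (A : Set (L2 Γ K →L[ℂ] L2 Γ K)) := by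
    rw [hA]; exact h5 Γ K π hs
  have hBcl : IsClosed (B : Set (L2 Γ K →L[ℂ] L2 Γ K)) := by
    rw [hB]; exact h5 Γ K π' hs'
  have memA : ∀ T, T ∈ Aset π → T ∈ A := by
    intro T hT
    rw [← hA] at hT
    exact hT
  have memB : ∀ T, T ∈ Aset π' → T ∈ B := by
    intro T hT
    rw [← hB] at hT
    exact hT
  have Bmem : ∀ b : B, (b : L2 Γ K →L[ℂ] L2 Γ K) ∈ Aset π' := by
    intro b
    rw [← hB]; exact b.2
  have hJA : ∀ T, T ∈ Jd Γ K → T ∈ A := fun T hT => memA T (Jd_le h0 π T hT)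
  have hJB : ∀ T, T ∈ Jd Γ K → T ∈ B := fun T hT => memB T (Jd_le h0 π' T hT)
  have hθn : ∀ a : A, ‖((θ a : B) : L2 Γ K →L[ℂ] L2 Γ K)‖ = ‖(a : L2 Γ K →L[ℂ] L2 Γ K)‖ :=
    fun a => h12a (L2 Γ K) A B hAcl hBcl θ a
  let GA : K → K → Γ → A := fun x y g => ⟨Gop x y g, hJA _ (Gop_mem x y g)⟩
  let SA : Cr Γ K → A := fun c => ⟨sg π c, memA _ (sg_le π c c.2)⟩
  let Φ : K → K → Γ → (L2 Γ K →L[ℂ] L2 Γ K) := fun x y g => ((θ (GA x y g) : B) : _)
  let Ψ : Cr Γ K →ₗ[ℂ] (L2 Γ K →L[ℂ] L2 Γ K) :=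
    { toFun := fun c => ((θ (SA c) : B) : _)
      map_add' := fun c d => by
        have h : SA (c + d) = SA c + SA d := Subtype.ext (hadd _ _)
        rw [h, map_add]; rfl
      map_smul' := fun a c => by
        have h : SA (a • c) = a • SA c := Subtype.ext (hsmul _ _)
        rw [h, map_smul]; rfl }
  have hΦadd : ∀ x x' y g, Φ (x + x') y g = Φ x y g + Φ x' y g := by
    intro x x' y g
    have h : GA (x + x') y g = GA x y g + GA x' y g := Subtype.ext (Gop_add _ _ _ _)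
    change ((θ (GA (x + x') y g) : B) : L2 Γ K →L[ℂ] L2 Γ K) = _
    rw [h, map_add]; rfl
  have hΦsmul : ∀ (a : ℂ) x y g, Φ (a • x) y g = a • Φ x y g := by
    intro a x y g
    have h : GA (a • x) y g = a • GA x y g := Subtype.ext (Gop_smul _ _ _ _)
    change ((θ (GA (a • x) y g) : B) : L2 Γ K →L[ℂ] L2 Γ K) = _
    rw [h, map_smul]; rfl
  have hspan : ∀ T, T ∈ Submodule.span ℂ {T : L2 Γ K →L[ℂ] L2 Γ K | ∃ (x y : K) (g : Γ),
      T = Gop x y g} → ∀ (hT : T ∈ A) (z : L2 Γ K),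
      FS Φ (((θ ⟨T, hT⟩ : B) : L2 Γ K →L[ℂ] L2 Γ K) z) := by
    intro T hT
    have hle : Submodule.span ℂ {T : L2 Γ K →L[ℂ] L2 Γ K | ∃ (x y : K) (g : Γ),
      T = Gop x y g} ≤ Jd Γ K := Submodule.le_topologicalClosure _
    refine Submodule.span_induction (p := fun T _ => ∀ (hT : T ∈ A) (z : L2 Γ K),
      FS Φ (((θ ⟨T, hT⟩ : B) : L2 Γ K →L[ℂ] L2 Γ K) z)) ?_ ?_ ?_ ?_ hT
    · rintro T ⟨x, y, g, rfl⟩ hT z
      exact FS_one Φ x y g z
    · intro hT z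
      have h : (⟨0, hT⟩ : A) = 0 := rfl
      rw [h, map_zero]
      exact FS_zero Φ
    · intro a b ha hb iha ihb hT z
      have ha' : a ∈ A := hJA _ (hle ha)
      have hb' : b ∈ A := hJA _ (hle hb)
      have h : (⟨a + b, hT⟩ : A) = ⟨a, ha'⟩ + ⟨b, hb'⟩ := rfl
      rw [h, map_add]
      exact FS_add Φ _ _ (iha ha' z) (ihb hb' z)
    · intro c a ha iha hT z
      have ha' : a ∈ A := hJA _ (hle ha)
      have h : (⟨c • a, hT⟩ : A) = c • ⟨a, ha'⟩ := rfl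
      rw [h, map_smul]
      obtain ⟨m, x, y, g, w, hw⟩ := iha ha' z
      refine ⟨m, fun r => c • x r, y, g, w, ?_⟩
      change c • (((θ ⟨a, ha'⟩ : B) : L2 Γ K →L[ℂ] L2 Γ K) z) = _
      rw [hw, Finset.smul_sum]
      refine Finset.sum_congr rfl fun r _ => ?_
      rw [hΦsmul]; rfl
  have hap : ∀ (x y : K) (g : Γ) (z : L2 Γ K) (ε : ℝ), 0 < ε →
      ∃ v, FS Φ v ∧ ‖Gop x y g z - v‖ < ε := by
    intro x y g z ε hε
    let b : B := ⟨Gop x y g, hJB _ (Gop_mem x y g)⟩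
    have hb := h12 Γ K π' π f hf hs' hs B A hB hA θ.symm b (Gop_mem x y g)
    have hεz : 0 < ε / (‖z‖ + 1) := div_pos hε (by positivity)
    obtain ⟨s, hs1, hs2⟩ := Metric.mem_closure_iff.1 hb (ε / (‖z‖ + 1)) hεz
    have hsA : s ∈ A := hJA _ (Submodule.le_topologicalClosure _ hs1)
    refine ⟨((θ ⟨s, hsA⟩ : B) : L2 Γ K →L[ℂ] L2 Γ K) z, hspan s hs1 hsA z, ?_⟩
    have h1 : Gop x y g = ((θ (θ.symm b) : B) : L2 Γ K →L[ℂ] L2 Γ K) := by
      rw [θ.apply_symm_apply]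
    have h2 : ‖Gop x y g - ((θ ⟨s, hsA⟩ : B) : L2 Γ K →L[ℂ] L2 Γ K)‖ < ε / (‖z‖ + 1) := by
      have h3 : Gop x y g - ((θ ⟨s, hsA⟩ : B) : L2 Γ K →L[ℂ] L2 Γ K)
          = ((θ (θ.symm b - ⟨s, hsA⟩) : B) : L2 Γ K →L[ℂ] L2 Γ K) := by
        rw [map_sub, h1]; rfl
      rw [h3, hθn]
      rw [dist_eq_norm] at hs2
      exact hs2
    have h4 : Gop x y g z - ((θ ⟨s, hsA⟩ : B) : L2 Γ K →L[ℂ] L2 Γ K) z
        = (Gop x y g - ((θ ⟨s, hsA⟩ : B) : L2 Γ K →L[ℂ] L2 Γ K)) z := rfl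
    rw [h4]
    refine (ContinuousLinearMap.le_opNorm _ _).trans_lt ?_
    have h5' : ‖Gop x y g - ((θ ⟨s, hsA⟩ : B) : L2 Γ K →L[ℂ] L2 Γ K)‖ * ‖z‖
        ≤ ε / (‖z‖ + 1) * ‖z‖ := mul_le_mul_of_nonneg_right h2.le (norm_nonneg _)
    refine h5'.trans_lt ?_
    rw [div_mul_eq_mul_div, div_lt_iff₀ (by positivity)]
    have := norm_nonneg z
    nlinarith
  refine ⟨Φ, Ψ, ⟨hΦadd, hΦsmul, ?_, ?_, ?_, ?_, ?_, ?_, ?_⟩, ?_⟩
  · intro x y g x' y' g'
    have h : GA x y g * GA x' y' g' = ⟪y, x'⟫_ℂ • GA x y' (g * g') :=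
      Subtype.ext (Gop_mul _ _ _ _ _ _)
    change ((θ (GA x y g) : B) : L2 Γ K →L[ℂ] L2 Γ K) * ((θ (GA x' y' g') : B) : _) = _
    have h2 : ((θ (GA x y g) : B) : L2 Γ K →L[ℂ] L2 Γ K) * ((θ (GA x' y' g') : B) : _)
      = ((θ (GA x y g) * θ (GA x' y' g') : B) : L2 Γ K →L[ℂ] L2 Γ K) := rfl
    rw [h2, ← map_mul, h, map_smul]; rfl
  · intro x y g
    have h : star (GA x y g) = GA y x g⁻¹ := Subtype.ext (Gop_star _ _ _)
    change star ((θ (GA x y g) : B) : L2 Γ K →L[ℂ] L2 Γ K) = _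
    have h2 : star ((θ (GA x y g) : B) : L2 Γ K →L[ℂ] L2 Γ K)
      = ((star (θ (GA x y g)) : B) : L2 Γ K →L[ℂ] L2 Γ K) := rfl
    have h3 : θ (star (GA x y g)) = star (θ (GA x y g)) := θ.map_star' (GA x y g)
    rw [h2, ← h3, h]
  · intro x y g h
    exact Aset_Rho h0 π' _ (Bmem _) h
  · intro c
    change ‖((θ (SA c) : B) : L2 Γ K →L[ℂ] L2 Γ K)‖ ≤ _
    rw [hθn]
    exact (hnorm c).le
  · intro c h
    exact Aset_Rho h0 π' _ (Bmem _) h
  · intro h x y g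
    have h1 : SA ⟨cl (Lam K h), Lam_mem h⟩ * GA x y g = GA (π h x) y (h * g) :=
      Subtype.ext (sg_Gop π h x y g)
    change ((θ (SA ⟨cl (Lam K h), Lam_mem h⟩) : B) : L2 Γ K →L[ℂ] L2 Γ K) *
      ((θ (GA x y g) : B) : _) = _
    have h2 : ((θ (SA ⟨cl (Lam K h), Lam_mem h⟩) : B) : L2 Γ K →L[ℂ] L2 Γ K) *
      ((θ (GA x y g) : B) : _) =
      ((θ (SA ⟨cl (Lam K h), Lam_mem h⟩) * θ (GA x y g) : B) : L2 Γ K →L[ℂ] L2 Γ K) := rfl
    rw [h2, ← map_mul, h1]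
  · intro ζ δ hδ
    obtain ⟨m, x, y, g, z, hz⟩ := h14 Γ K ζ (δ / 2) (by positivity)
    have hm : (0 : ℝ) < δ / (2 * (m + 1)) := by positivity
    choose v hv hv2 using fun r : Fin m => hap (x r) (y r) (g r) (z r) (δ / (2 * (m + 1))) hm
    obtain ⟨m', x', y', g', z', hw⟩ := FS_sum Φ Finset.univ v fun r _ => hv r
    refine ⟨m', x', y', g', z', ?_⟩
    rw [← hw]
    have h1 : ζ - ∑ r, v r = (ζ - ∑ r, Gop (x r) (y r) (g r) (z r)) +
        ∑ r, (Gop (x r) (y r) (g r) (z r) - v r) := by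
      rw [Finset.sum_sub_distrib]; abel
    rw [h1]
    refine (norm_add_le _ _).trans_lt ?_
    have h2 : ‖∑ r, (Gop (x r) (y r) (g r) (z r) - v r)‖ ≤ δ / 2 := by
      refine (norm_sum_le _ _).trans ?_
      refine (Finset.sum_le_sum fun r _ => (hv2 r).le).trans ?_
      rw [Finset.sum_const, Finset.card_univ, Fintype.card_fin, nsmul_eq_mul]
      rw [mul_div_assoc', div_le_div_iff₀ (by positivity) (by positivity)]
      nlinarith
    linarith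
  · intro x c hx
    have h1 := h12 Γ K π π' f hf hs hs' A B hA hB θ (x - SA c) hx
    rw [map_sub] at h1
    exact h1

end main

end
end Pool.Agent.W115.SK
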